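import Pool.Agent.HF.Stmts

/-!
# Squad HF, module TB: the complexity of the components
-/

namespace Pool.Agent.HF.H67

open Pool.Agent.Glue Pool.Agent.FB Pool.Agent.CD Pool.Agent.HF
open scoped TensorProduct

noncomputable section

section

variable {G D : Type} [Group G] [DivisionRing D]

theorem DS_mono {sg : G →* D} {S T : Set G} (h : S ⊆ T) : DS sg S ≤ DS sg T :=
  Subfield.closure_mono (Set.image_mono h)

theorem mem_DS {sg : G →* D} {S : Set G} {g : G} (h : g ∈ S) : sg g ∈ DS sg S :=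
  Subfield.subset_closure (Set.mem_image_of_mem _ h)

/-- Conjugation maps the skew field generated by `S` to the skew field generated by the
conjugate. -/
theorem conj_DS {sg : G →* D} {S T : Set G} {a : G} (h : ∀ s ∈ S, a * s * a⁻¹ ∈ T) {x : D}
    (hx : x ∈ DS sg S) : sg a * x * sg a⁻¹ ∈ DS sg T := by
  have ha : sg a * sg a⁻¹ = 1 := by rw [← map_mul, mul_inv_cancel, map_one]
  have ha' : sg a⁻¹ * sg a = 1 := by rw [← map_mul, inv_mul_cancel, map_one]
  unfold DS at hx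
  refine Subfield.closure_induction (p := fun x _ => sg a * x * sg a⁻¹ ∈ DS sg T)
    ?_ ?_ ?_ ?_ ?_ ?_ hx
  · rintro _ ⟨s, hs, rfl⟩
    rw [← map_mul, ← map_mul]
    exact mem_DS (h s hs)
  · rw [mul_one, ha]
    exact one_mem _
  · intro x y _ _ h1 h2
    have : sg a * (x + y) * sg a⁻¹ = sg a * x * sg a⁻¹ + sg a * y * sg a⁻¹ := by
      rw [mul_add, add_mul]
    rw [this]
    exact add_mem h1 h2
  · intro x _ h1
    have : sg a * (-x) * sg a⁻¹ = -(sg a * x * sg a⁻¹) := by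
      rw [mul_neg, neg_mul]
    rw [this]
    exact neg_mem h1
  · intro x _ h1
    have hne : sg a ≠ 0 := fun h0 => one_ne_zero (α := D) (by rw [← ha, h0, zero_mul])
    have e1 : sg a⁻¹ = (sg a)⁻¹ := by
      rw [eq_comm]
      exact inv_eq_of_mul_eq_one_right ha
    have : sg a * x⁻¹ * sg a⁻¹ = (sg a * x * sg a⁻¹)⁻¹ := by
      rw [e1, mul_inv_rev, mul_inv_rev, inv_inv, mul_assoc]
    rw [this]
    exact inv_mem h1
  · intro x y _ _ h1 h2
    have : sg a * (x * y) * sg a⁻¹ = (sg a * x * sg a⁻¹) * (sg a * y * sg a⁻¹) := by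
      calc sg a * (x * y) * sg a⁻¹ = sg a * x * 1 * y * sg a⁻¹ := by
            rw [mul_one, mul_assoc (sg a) x y]
        _ = sg a * x * (sg a⁻¹ * sg a) * y * sg a⁻¹ := by rw [ha']
        _ = _ := by simp only [mul_assoc]
    rw [this]
    exact mul_mem h1 h2

/-- The coefficients of an expansion shifted by a group element. -/
theorem coeff_mul_sg {sg : G →* D} {L : Subgroup G} (E : Ell sg L) {w : D}
    (hw : w ∈ DS sg (L : Set G)) {k : G} (hk : k ∈ L) (i : ℤ) :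
    (E.L (w * sg k)).coeff i = (E.L w).coeff (i - E.c k) * sg k := by
  rw [E.L_mul w hw _ (mem_DS hk), E.L_sg k hk]
  have := HahnSeries.coeff_mul_single_add (r := sg k) (x := E.L w) (a := i - E.c k) (b := E.c k)
  rw [sub_add_cancel] at this
  exact this

theorem finite_pairs {D : Type} [DivisionRing D] (X Y : HahnSeries ℤ D) (n : ℤ) :
    {p : ℤ | X.coeff p ≠ 0 ∧ Y.coeff (n - p) ≠ 0}.Finite := by
  by_cases hX : X = 0
  · subst hX
    simp
  by_cases hY : Y = 0
  · subst hY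
    simp
  refine (Set.finite_Icc X.order (n - Y.order)).subset ?_
  rintro p ⟨h1, h2⟩
  refine ⟨HahnSeries.order_le_of_coeff_ne_zero h1, ?_⟩
  have := HahnSeries.order_le_of_coeff_ne_zero h2
  omega

end

section ord

variable {T : Type 1} [CommSemiring T] [LinearOrder T] [IsStrictOrderedRing T]

theorem sum_le_mul {F : Finset ℤ} {f g : ℤ → T} {A B : T} (nn : ∀ a : T, 0 ≤ a)
    (hf : ∑ p ∈ F, f p ≤ A) (hg : ∑ p ∈ F, g p ≤ B) : ∑ p ∈ F, f p * g p ≤ A * B := by
  have h1 : ∀ p ∈ F, f p * g p ≤ f p * B := fun p hp =>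
    mul_le_mul_of_nonneg_left ((Finset.single_le_sum (fun i _ => nn (g i)) hp).trans hg) (nn _)
  calc ∑ p ∈ F, f p * g p ≤ ∑ p ∈ F, f p * B := Finset.sum_le_sum h1
    _ = (∑ p ∈ F, f p) * B := (Finset.sum_mul _ _ _).symm
    _ ≤ A * B := mul_le_mul_of_nonneg_right hf (nn _)

theorem sum_lt_mul {F : Finset ℤ} {f g : ℤ → T} {A B : T} (nn : ∀ a : T, 0 ≤ a)
    (hA : 0 < A) (hB : 0 < B) (hf : ∀ p, f p < A) (hg : ∑ p ∈ F, g p ≤ B) :
    ∑ p ∈ F, f p * g p < A * B := by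
  rcases F.eq_empty_or_nonempty with rfl | hne
  · simpa using mul_pos hA hB
  · obtain ⟨p0, hp0, hmax⟩ := F.exists_max_image f hne
    calc ∑ p ∈ F, f p * g p ≤ ∑ p ∈ F, f p0 * g p :=
          Finset.sum_le_sum fun p hp => mul_le_mul_of_nonneg_right (hmax p hp) (nn _)
      _ = f p0 * ∑ p ∈ F, g p := (Finset.mul_sum _ _ _).symm
      _ ≤ f p0 * B := mul_le_mul_of_nonneg_left hg (nn _)
      _ < A * B := mul_lt_mul_of_pos_right (hf p0) hB

end ord

/-- Module TB. -/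
theorem tb : TbStmt := by
  intro G _ h K u v hu hv
  have htop : ∀ x : h.D, x ∈ DS h.sg ((⊤ : Subgroup G) : Set G) := by
    intro x
    rw [Subgroup.coe_top, h.gen]
    exact Subfield.mem_top x
  obtain ⟨R, a, -, -, hRu, hRb, hRx⟩ := K.ex u (htop u) hu
  obtain ⟨R', b, -, -, hRv, hRb', hRx'⟩ := K.ex v (htop v) hv
  refine ⟨R, R', a, b, hRu, hRv, hRb, hRb', ?_⟩
  intro γ L E hRL hR'L hk n
  set k : G := a * b * γ⁻¹ with hkdef
  set U : h.D := u * h.sg a⁻¹ with hU
  set W : h.D := h.sg a * (v * h.sg b⁻¹) * h.sg a⁻¹ with hW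
  have hWL : W ∈ DS h.sg (L : Set G) := conj_DS (fun s hs => hR'L s hs) hRv
  have hUL : U ∈ DS h.sg (L : Set G) := DS_mono (fun s hs => hRL hs) hRu
  have hVW : h.sg a * v * h.sg γ⁻¹ = W * h.sg k := by
    rw [hW, hkdef, map_mul, map_mul]
    have e1 : h.sg a⁻¹ * h.sg a = 1 := by rw [← map_mul, inv_mul_cancel, map_one]
    have e2 : h.sg b⁻¹ * h.sg b = 1 := by rw [← map_mul, inv_mul_cancel, map_one]
    have e3 : h.sg a * (v * h.sg b⁻¹) * h.sg a⁻¹ * (h.sg a * h.sg b * h.sg γ⁻¹) =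
        h.sg a * (v * (h.sg b⁻¹ * (h.sg a⁻¹ * h.sg a) * h.sg b)) * h.sg γ⁻¹ := by
      simp only [mul_assoc]
    rw [e3, e1, mul_one (h.sg b⁻¹), e2, mul_one v]
  have hco : ∀ i, (E.L (h.sg a * v * h.sg γ⁻¹)).coeff i = (E.L W).coeff (i - E.c k) * h.sg k := by
    intro i
    rw [hVW]
    exact coeff_mul_sg E hWL hk i
  have hXu := hRx 1 (Subgroup.mem_top _) L E (fun r hr => by
    rw [one_mul, inv_one, mul_one]
    exact hRL hr)
  rw [show h.sg 1 * (u * h.sg a⁻¹) * h.sg 1⁻¹ = U by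
    rw [inv_one, map_one, one_mul, mul_one]] at hXu
  have hXv := hRx' a (Subgroup.mem_top _) L E (fun r hr => hR'L r hr)
  rw [← hW] at hXv
  obtain ⟨-, hXu1, hXu2⟩ := hXu
  obtain ⟨-, hXv1, hXv2⟩ := hXv
  have cU : ∀ p, K.cx ((E.L U).coeff p * h.sg a) = K.cx ((E.L U).coeff p) := fun p =>
    K.mulg _ (htop _) a (Subgroup.mem_top _)
  have cV : ∀ i, K.cx (h.sg a⁻¹ * (E.L (h.sg a * v * h.sg γ⁻¹)).coeff i) =
      K.cx ((E.L W).coeff (i - E.c k)) := fun i => by
    rw [K.gmul _ (htop _) _ (Subgroup.mem_top _), hco, K.mulg _ (htop _) k (Subgroup.mem_top _)]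
  set F : Finset ℤ := (finite_pairs (E.L U) (E.L (h.sg a * v * h.sg γ⁻¹)) n).toFinset with hF
  have hFm : ∀ p, p ∈ F ↔ (E.L U).coeff p ≠ 0 ∧
      (E.L (h.sg a * v * h.sg γ⁻¹)).coeff (n - p) ≠ 0 := by
    intro p
    rw [hF, Set.Finite.mem_toFinset]
    rfl
  have hsumv : ∑ p ∈ F, K.cx ((E.L W).coeff (n - p - E.c k)) ≤ K.cx v := by
    have := hXv1 (F.image fun p => n - p - E.c k)
    rw [Finset.sum_image (fun x _ y _ hxy => by
      have hxy' : n - x - E.c k = n - y - E.c k := hxy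
      omega)] at this
    exact this
  refine ⟨F, fun p hp => (hFm p).1 hp, ?_, ?_, ?_, ?_⟩
  · unfold Bn
    refine finsum_eq_sum_of_support_subset _ ?_
    intro p hp
    rw [Finset.mem_coe, hFm]
    rw [Function.mem_support] at hp
    refine ⟨fun h0 => hp ?_, fun h0 => hp ?_⟩
    · rw [h0, TensorProduct.zero_tmul]
    · rw [h0, TensorProduct.tmul_zero]
  · simp only [cU, cV]
    exact sum_le_mul K.nonneg (hXu1 F) hsumv
  · intro hc
    simp only [cU, cV]
    have hup := K.pos u (htop u) hu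
    have hvp := K.pos v (htop v) hv
    rcases hc with ⟨x, hx, hcx⟩ | ⟨x, hx, hcx⟩
    · refine sum_lt_mul K.nonneg hup hvp (hXu2 ⟨x, hx, ?_⟩) hsumv
      rw [one_mul, inv_one, mul_one]
      exact hcx
    · have := sum_lt_mul (F := F) (f := fun p => K.cx ((E.L W).coeff (n - p - E.c k)))
        (g := fun p => K.cx ((E.L U).coeff p)) K.nonneg hvp hup
        (fun p => hXv2 ⟨x, hx, hcx⟩ _) (hXu1 F)
      rw [mul_comm (K.cx u)]
      refine lt_of_eq_of_lt (Finset.sum_congr rfl fun p _ => mul_comm _ _) this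
  · intro hc1 hc2 hn
    rw [Finset.eq_empty_iff_forall_notMem]
    intro p hp
    obtain ⟨h1, h2⟩ := (hFm p).1 hp
    have hUk : U ∈ DS h.sg {x | x ∈ L ∧ E.c x = 0} :=
      DS_mono (S := (R : Set G)) (T := {x | x ∈ L ∧ E.c x = 0})
        (fun s hs => And.intro (hRL hs) (hc1 s hs)) hRu
    have hWk : W ∈ DS h.sg {x | x ∈ L ∧ E.c x = 0} :=
      conj_DS (S := (R' : Set G)) (T := {x | x ∈ L ∧ E.c x = 0})
        (fun s hs => And.intro (hR'L s hs) (hc2 s hs)) hRv
    rw [E.L_ker U hUk] at h1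
    have hp0 : p = 0 := by
      by_contra hne
      exact h1 (HahnSeries.coeff_single_of_ne hne)
    rw [hco, E.L_ker W hWk] at h2
    have hp1 : n - p - E.c k = 0 := by
      by_contra hne
      exact h2 (by rw [HahnSeries.coeff_single_of_ne hne, zero_mul])
    exact hn (by omega)

end

end Pool.Agent.HF.H67
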