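import Pool.Agent.HF.Stmts
import Pool.Agent.Helper67_HF.TB

/-!
# Squad HF, module GE2: the complexity of the expansion of a sum
-/

namespace Pool.Agent.HF.H67

open Pool.Agent.Glue Pool.Agent.FB Pool.Agent.CD Pool.Agent.HF
open scoped TensorProduct

noncomputable section

section

variable {G D : Type} [Group G] [DivisionRing D]

theorem c_one {sg : G →* D} {H : Subgroup G} (E : Ell sg H) : E.c 1 = 0 := by
  have := E.c_mul 1 H.one_mem 1 H.one_mem
  rw [mul_one] at this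
  omega

theorem c_inv {sg : G →* D} {H : Subgroup G} (E : Ell sg H) {x : G} (hx : x ∈ H) :
    E.c x⁻¹ = -E.c x := by
  have := E.c_mul x hx x⁻¹ (H.inv_mem hx)
  rw [mul_inv_cancel, c_one] at this
  omega

/-- The kernel of the homomorphism `c` of an expansion. -/
def kerc {sg : G →* D} {H : Subgroup G} (E : Ell sg H) : Subgroup G where
  carrier := {x | x ∈ H ∧ E.c x = 0}
  mul_mem' := by
    rintro x y ⟨hx, cx⟩ ⟨hy, cy⟩
    exact ⟨H.mul_mem hx hy, by rw [E.c_mul x hx y hy, cx, cy, add_zero]⟩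
  one_mem' := ⟨H.one_mem, c_one E⟩
  inv_mem' := by
    rintro x ⟨hx, cx⟩
    exact ⟨H.inv_mem hx, by rw [c_inv E hx, cx, neg_zero]⟩

theorem mem_kerc {sg : G →* D} {H : Subgroup G} (E : Ell sg H) {x : G} :
    x ∈ kerc E ↔ x ∈ H ∧ E.c x = 0 := Iff.rfl

/-- If the homomorphism `c` vanishes on the conjugates of three subgroups, it vanishes on the
conjugate of their join. -/
theorem c_join {sg : G →* D} {H : Subgroup G} (E : Ell sg H) (u : G) (A B : Subgroup G) (z : G)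
    (hA : ∀ r ∈ A, u * r * u⁻¹ ∈ H ∧ E.c (u * r * u⁻¹) = 0)
    (hB : ∀ r ∈ B, u * r * u⁻¹ ∈ H ∧ E.c (u * r * u⁻¹) = 0)
    (hz : u * z * u⁻¹ ∈ H ∧ E.c (u * z * u⁻¹) = 0) :
    ∀ r ∈ A ⊔ B ⊔ Subgroup.zpowers z, u * r * u⁻¹ ∈ H ∧ E.c (u * r * u⁻¹) = 0 := by
  have key : A ⊔ B ⊔ Subgroup.zpowers z ≤ (kerc E).comap (MulAut.conj u).toMonoidHom := by
    refine sup_le (sup_le ?_ ?_) ?_
    · intro r hr
      exact hA r hr
    · intro r hr
      exact hB r hr
    · rw [Subgroup.zpowers_le]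
      exact hz
  intro r hr
  exact key hr

/-- Membership of `nv e u` in the skew field generated by the subgroup. -/
theorem nv_mem [CharP D 2] (hsrc : SrcStmt) {sg : G →* D} {S H : Subgroup G} {e : Ex G}
    (he : e.In S) {u : G} (h : ∀ r ∈ e.src, u * r * u⁻¹ ∈ H) : nv sg e u ∈ DS sg (H : Set G) :=
  conj_DS (S := (e.src : Set G)) h (hsrc G D sg S e he).2.2.1

end

/-- Module GE2. -/
theorem ge2 (hsrc : SrcStmt) : Ge2Stmt := by
  intro K G D _ _ _ sg S hC a b ha hb hin u hu H E hE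
  obtain ⟨ia, ib⟩ : a.In S ∧ b.In S := hin
  have hsrcab : (Ex.add a b).src = a.src ⊔ b.src ⊔ Subgroup.zpowers (b.tr * (a.tr)⁻¹) := rfl
  rw [hsrcab] at hE
  have hEa : ∀ r ∈ a.src, u * r * u⁻¹ ∈ H := fun r hr =>
    hE r (Subgroup.mem_sup_left (Subgroup.mem_sup_left hr))
  have hEb : ∀ r ∈ b.src, u * r * u⁻¹ ∈ H := fun r hr =>
    hE r (Subgroup.mem_sup_left (Subgroup.mem_sup_right hr))
  obtain ⟨-, hta, -, -⟩ := hsrc G D sg S a ia
  obtain ⟨-, htb, -, -⟩ := hsrc G D sg S b ib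
  set z : G := b.tr * (a.tr)⁻¹ with hz
  set h : G := u * z * u⁻¹ with hh
  have hhH : h ∈ H := hE z (Subgroup.mem_sup_right (Subgroup.mem_zpowers z))
  have hhS : h ∈ S := S.mul_mem (S.mul_mem hu (S.mul_mem htb (S.inv_mem hta))) (S.inv_mem hu)
  obtain ⟨a1, a2, a3⟩ := ha ia u hu H E hEa
  obtain ⟨b1, b2, b3⟩ := hb ib u hu H E hEb
  have na : nv sg a u ∈ DS sg (H : Set G) := nv_mem hsrc ia hEa
  have nb : nv sg b u ∈ DS sg (H : Set G) := nv_mem hsrc ib hEb
  have nh : sg h ∈ DS sg (H : Set G) := mem_DS hhH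
  have hnv : nv sg (Ex.add a b) u = nv sg a u + nv sg b u * sg h := by
    have e1 : sg u⁻¹ * sg u = 1 := by rw [← map_mul, inv_mul_cancel, map_one]
    have e2 : sg (b.tr)⁻¹ * sg b.tr = 1 := by rw [← map_mul, inv_mul_cancel, map_one]
    have e3 : nv sg b u * sg h = sg u * (b.val sg * (sg (b.tr)⁻¹ * (sg u⁻¹ * sg u) * sg b.tr) *
        sg (a.tr)⁻¹) * sg u⁻¹ := by
      rw [hh, hz, map_mul, map_mul, map_mul]
      unfold nv
      simp only [mul_assoc]
    rw [e3, e1, mul_one (sg (b.tr)⁻¹), e2, mul_one (b.val sg)]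
    unfold nv
    rw [show (Ex.add a b).val sg = a.val sg + b.val sg from rfl,
      show (Ex.add a b).tr = a.tr from rfl, add_mul, mul_add, add_mul]
  have hco : ∀ i, (E.L (nv sg (Ex.add a b) u)).coeff i = (E.L (nv sg a u)).coeff i +
      (E.L (nv sg b u)).coeff (i - E.c h) * sg h := by
    intro i
    rw [hnv, E.L_add _ na _ (mul_mem nb nh), HahnSeries.coeff_add, coeff_mul_sg E nb hhH]
  have hcx : ∀ i, cx K sg S ((E.L (nv sg (Ex.add a b) u)).coeff i) ≤
      cx K sg S ((E.L (nv sg a u)).coeff i) + cx K sg S ((E.L (nv sg b u)).coeff (i - E.c h)) := by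
    intro i
    rw [hco]
    refine (hC.add _ (a1 i) _ (mul_mem (b1 _) (mem_DS hhS))).trans (le_of_eq ?_)
    rw [hC.mulg _ (b1 _) h hhS]
  have a2' : ∀ i, cx K sg S ((E.L (nv sg a u)).coeff i) ≤ cpx K a := fun i => by
    have := a2 {i}
    rwa [Finset.sum_singleton] at this
  have b2' : ∀ i, cx K sg S ((E.L (nv sg b u)).coeff i) ≤ cpx K b := fun i => by
    have := b2 {i}
    rwa [Finset.sum_singleton] at this
  have hcp : cpx K (Ex.add a b) = cpx K a + cpx K b := rfl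
  have hpa : 0 < cpx K a := lt_of_lt_of_le zero_lt_one (hC.one_le a)
  have hpb : 0 < cpx K b := lt_of_lt_of_le zero_lt_one (hC.one_le b)
  refine ⟨fun i => ?_, fun F => ?_, fun hne i => ?_⟩
  · rw [hco]
    exact add_mem (a1 i) (mul_mem (b1 _) (mem_DS hhS))
  · rw [hcp]
    calc ∑ i ∈ F, cx K sg S ((E.L (nv sg (Ex.add a b) u)).coeff i)
        ≤ ∑ i ∈ F, (cx K sg S ((E.L (nv sg a u)).coeff i) +
          cx K sg S ((E.L (nv sg b u)).coeff (i - E.c h))) := Finset.sum_le_sum fun i _ => hcx i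
      _ = ∑ i ∈ F, cx K sg S ((E.L (nv sg a u)).coeff i) +
          ∑ i ∈ F, cx K sg S ((E.L (nv sg b u)).coeff (i - E.c h)) := Finset.sum_add_distrib
      _ = ∑ i ∈ F, cx K sg S ((E.L (nv sg a u)).coeff i) +
          ∑ i ∈ F.image (fun i => i - E.c h), cx K sg S ((E.L (nv sg b u)).coeff i) := by
          rw [Finset.sum_image (fun x _ y _ hxy => by
            have hxy' : x - E.c h = y - E.c h := hxy
            omega)]
      _ ≤ cpx K a + cpx K b := add_le_add (a2 _) (b2 _)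
  · rw [hcp]
    by_cases hca : ∃ r ∈ a.src, E.c (u * r * u⁻¹) ≠ 0
    · exact (hcx i).trans_lt (add_lt_add_of_lt_of_le (a3 hca i) (b2' _))
    by_cases hcb : ∃ r ∈ b.src, E.c (u * r * u⁻¹) ≠ 0
    · exact (hcx i).trans_lt (add_lt_add_of_le_of_lt (a2' i) (b3 hcb _))
    push Not at hca hcb
    have hm : E.c h ≠ 0 := by
      intro h0
      obtain ⟨r, hr, hr0⟩ := hne
      exact hr0 (c_join E u a.src b.src z (fun r hr => ⟨hEa r hr, hca r hr⟩)
        (fun r hr => ⟨hEb r hr, hcb r hr⟩) ⟨hhH, h0⟩ r hr).2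
    have ka : E.L (nv sg a u) = HahnSeries.single 0 (nv sg a u) :=
      E.L_ker _ (conj_DS (S := (a.src : Set G)) (T := {x | x ∈ H ∧ E.c x = 0})
        (fun s hs => And.intro (hEa s hs) (hca s hs)) (hsrc G D sg S a ia).2.2.1)
    have kb : E.L (nv sg b u) = HahnSeries.single 0 (nv sg b u) :=
      E.L_ker _ (conj_DS (S := (b.src : Set G)) (T := {x | x ∈ H ∧ E.c x = 0})
        (fun s hs => And.intro (hEb s hs) (hcb s hs)) (hsrc G D sg S b ib).2.2.1)
    by_cases hi : i = 0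
    · have hB : (E.L (nv sg b u)).coeff (i - E.c h) = 0 := by
        rw [kb]
        exact HahnSeries.coeff_single_of_ne (by omega)
      rw [hco, hB, zero_mul, add_zero]
      exact (a2' i).trans_lt (lt_add_of_pos_right _ hpb)
    · have hA : (E.L (nv sg a u)).coeff i = 0 := by
        rw [ka]
        exact HahnSeries.coeff_single_of_ne hi
      rw [hco, hA, zero_add, hC.mulg _ (b1 _) h hhS]
      exact (b2' _).trans_lt (lt_add_of_pos_left _ hpa)

end

end Pool.Agent.HF.H67
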